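import Pool.Agent.W23.SG.Defs

/-! Subtask SG-NU3 of helper23: a numerical inequality. -/

namespace Pool.Agent.W347.SG

open Pool.Agent.W23.SG

theorem NU3 : St_NU3 := by
  unfold St_NU3
  have hmem : ∀ x ∈ Set.uIcc (1 / 8 : ℝ) (9 / 20), 1 / 8 ≤ x ∧ x ≤ 9 / 20 := by
    intro x hx
    rw [Set.uIcc_of_le (by norm_num)] at hx
    exact hx
  have hint : (∫ x in (1 / 8 : ℝ)..(9 / 20), (1 - x / (9 / 20)) / (x * (99 / 200 - x))) =
      (200 / 99 * Real.log (9 / 20) + 20 / 99 * Real.log (99 / 200 - 9 / 20)) -
        (200 / 99 * Real.log (1 / 8) + 20 / 99 * Real.log (99 / 200 - 1 / 8)) := by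
    apply intervalIntegral.integral_eq_sub_of_hasDerivAt
      (f := fun x => 200 / 99 * Real.log x + 20 / 99 * Real.log (99 / 200 - x))
    · intro x hx
      obtain ⟨h1, h2⟩ := hmem x hx
      have hx0 : x ≠ 0 := by linarith
      have hx1 : 99 / 200 - x ≠ 0 := by linarith
      have d1 : HasDerivAt (fun x => 200 / 99 * Real.log x) (200 / 99 * x⁻¹) x :=
        (Real.hasDerivAt_log hx0).const_mul _
      have d2 : HasDerivAt (fun x : ℝ => 99 / 200 - x) (-1) x := by
        simpa using (hasDerivAt_id x).const_sub (99 / 200)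
      have d3 : HasDerivAt (fun x => 20 / 99 * Real.log (99 / 200 - x))
          (20 / 99 * (-1 / (99 / 200 - x))) x := (d2.log hx1).const_mul _
      have d4 : HasDerivAt (fun x => 200 / 99 * Real.log x + 20 / 99 * Real.log (99 / 200 - x))
          (200 / 99 * x⁻¹ + 20 / 99 * (-1 / (99 / 200 - x))) x := d1.add d3
      refine d4.congr_deriv ?_
      have hx2 : 99 - 200 * x ≠ 0 := by
        intro h
        apply hx1
        linarith
      field_simp
      ring
    · apply ContinuousOn.intervalIntegrable
      intro x hx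
      obtain ⟨h1, h2⟩ := hmem x hx
      have hx0 : x ≠ 0 := by linarith
      have hx1 : 99 / 200 - x ≠ 0 := by linarith
      have : x * (99 / 200 - x) ≠ 0 := mul_ne_zero hx0 hx1
      apply ContinuousAt.continuousWithinAt
      fun_prop (disch := assumption)
  rw [hint]
  have e1 : Real.log (9 / 20) - Real.log (1 / 8) = Real.log (18 / 5) := by
    rw [← Real.log_div (by norm_num) (by norm_num)]
    norm_num
  have e2 : Real.log (99 / 200 - 1 / 8) - Real.log (99 / 200 - 9 / 20) = Real.log (74 / 9) := by
    rw [← Real.log_div (by norm_num) (by norm_num)]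
    norm_num
  have hB : 0 < Real.log (74 / 9) := Real.log_pos (by norm_num)
  have key : 145 * Real.log (18 / 5) < 14 * Real.log (74 / 9) + 150 * Real.log (74 / 25) := by
    have h1 : 145 * Real.log (18 / 5) = Real.log ((18 / 5) ^ 145) := by
      rw [Real.log_pow]
      norm_num
    have h2 : 14 * Real.log (74 / 9) + 150 * Real.log (74 / 25) =
        Real.log ((74 / 9) ^ 14 * (74 / 25) ^ 150) := by
      rw [Real.log_mul (by positivity) (by positivity), Real.log_pow, Real.log_pow]
      norm_num
    rw [h1, h2]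
    apply Real.log_lt_log (by positivity)
    norm_num
  linarith

end Pool.Agent.W347.SG
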