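import Pool.Agent.W684.SG.Stm

set_option autoImplicit false

namespace W347.SG

open MeasureTheory Pool.Agent.W684.SG

theorem polish_cantor : PolishSpace (ℕ → Bool) := by
  have : PolishSpace Bool := { }
  infer_instance

theorem exists_iso : Nonempty ((ℕ → Bool) ≃ᵐ unitInterval) := by
  have := polish_cantor
  refine ⟨PolishSpace.measurableEquivOfNotCountable ?_ ?_⟩
  · rw [← Cardinal.mk_le_aleph0_iff, not_le]
    simp [Cardinal.aleph0_lt_continuum]
  · rw [← Cardinal.mk_le_aleph0_iff, not_le]
    have : Cardinal.mk unitInterval = Cardinal.continuum :=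
      Cardinal.mk_Icc_real (by norm_num : (0:ℝ) < 1)
    rw [this]
    exact Cardinal.aleph0_lt_continuum

theorem amb (hC : S_CODE) : S_AMB := by
  classical
  have := polish_cantor
  intro hPhi A
  by_contra hcon
  have hcon' : ∀ S : Set unitInterval, AnalyticSet S →
      MeasurableSet[MeasurableSpace.generateFrom (Set.range A)] S := by
    intro S hS
    by_contra h
    exact hcon ⟨S, hS, h⟩
  obtain ⟨g⟩ := exists_iso
  obtain ⟨y, hy⟩ := hPhi (fun n x => g (fun m => decide (x m)) ∈ A n)
  let G : unitInterval → (ℕ → Bool) := fun t n => decide (t ∈ A n)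
  have hG : ∀ S : Set unitInterval, MeasurableSet[MeasurableSpace.generateFrom (Set.range A)] S →
      ∃ B : Set (ℕ → Bool), MeasurableSet B ∧ G ⁻¹' B = S := by
    intro S hS
    have h1 : MeasurableSpace.generateFrom (Set.range A) ≤ MeasurableSpace.comap G inferInstance := by
      apply MeasurableSpace.generateFrom_le
      rintro _ ⟨n, rfl⟩
      refine ⟨(fun c : ℕ → Bool => c n) ⁻¹' {true}, measurable_pi_apply n (measurableSet_singleton _), ?_⟩
      ext t
      simp [G]
    exact h1 S hS
  let U : Set (ℕ → Bool) := {x | InAn (fun n => x n = true) y}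
  have hU : AnalyticSet U := (hC U).2 ⟨y, fun x => Iff.rfl⟩
  have hgU : AnalyticSet (g '' U) := by
    rw [AnalyticSet] at hU
    rcases hU with h | ⟨f, hf, hfU⟩
    · rw [h, Set.image_empty]
      exact analyticSet_empty
    · rw [← hfU, ← Set.range_comp, ← Set.image_univ]
      exact MeasurableSet.univ.analyticSet_image (g.measurable.comp hf.measurable)
  obtain ⟨B, hB, hBU⟩ := hG _ (hcon' _ hgU)
  obtain ⟨b, hb⟩ := (hC B).1 hB.analyticSet
  obtain ⟨b', hb'⟩ := (hC Bᶜ).1 hB.compl.analyticSet
  have hx : ∀ x : ℕ → Prop, (fun n => decide (x n) = true) = x := by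
    intro x; funext n; simp
  obtain ⟨x, hxx⟩ := hy b b' (by
    intro x
    have h1 := hb (fun n => decide (x n))
    have h2 := hb' (fun n => decide (x n))
    simp only [hx x] at h1 h2
    rw [← h1, ← h2]
    rfl)
  apply hxx
  have h1 : (fun n => decide (x n)) ∈ U ↔ InAn x y := by
    change InAn (fun n => decide (x n) = true) y ↔ _
    rw [hx x]
  have h2 : (fun n => decide (x n)) ∈ U ↔ g (fun n => decide (x n)) ∈ g '' U :=
    (g.injective.mem_set_image).symm
  rw [← h1, h2, ← hBU, Set.mem_preimage, hb]
  have h3 : (fun n => G (g fun n => decide (x n)) n = true) =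
      (fun n => g (fun m => decide (x m)) ∈ A n) := by
    funext n
    simp [G]
  rw [h3]

end W347.SG
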