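import Pool.Agent.W907.SG.Stmts

/-! Project SG (helper907): removing a vertex. -/

namespace Pool.Agent.W347.SGV

open Pool.Agent.W907.SG Module

variable {V : Type} [Fintype V] [LinearOrder V]
variable {F M : Type} [Field F] [AddCommGroup M] [Module F M]

/-- restriction to the link of `v` -/
def qq (F : Type) {V M : Type} [Fintype V] [LinearOrder V] [Field F] [AddCommGroup M] [Module F M]
    (v : V) : (Finset V → M) →ₗ[F] (Finset V → M) where
  toFun c T := if v ∈ T then 0 else sg v T • c (insert v T)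
  map_add' c d := by
    funext T
    by_cases h : v ∈ T <;> simp [h]
  map_smul' a c := by
    funext T
    by_cases h : v ∈ T
    · simp [h]
    · simp only [h, if_false, Pi.smul_apply, RingHom.id_apply]
      exact smul_comm _ _ _

theorem qq_apply (v : V) (c : Finset V → M) (T : Finset V) :
    qq F v c T = if v ∈ T then 0 else sg v T • c (insert v T) := rfl

theorem qq_of_mem {v : V} {T : Finset V} (c : Finset V → M) (h : v ∈ T) : qq F v c T = 0 := by
  rw [qq_apply, if_pos h]

theorem qq_of_not {v : V} {T : Finset V} (c : Finset V → M) (h : v ∉ T) :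
    qq F v c T = sg v T • c (insert v T) := by
  rw [qq_apply, if_neg h]

theorem qq_bd (v : V) (c : Finset V → M) : bd F (qq F v c) = - qq F v (bd F c) := by
  funext T
  rw [Pi.neg_apply, bd_apply]
  by_cases hv : v ∈ T
  · rw [qq_of_mem _ hv, neg_zero]
    refine Finset.sum_eq_zero fun u _ => ?_
    rw [qq_of_mem _ (Finset.mem_insert_of_mem hv), smul_zero]
  · rw [qq_of_not _ hv, bd_apply]
    have h1 : (insert v T)ᶜ = Tᶜ.erase v := by
      ext u; simp
    have hvc : v ∈ Tᶜ := by simpa using hv
    rw [h1, ← Finset.add_sum_erase _ _ hvc, qq_of_mem _ (Finset.mem_insert_self v T), smul_zero,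
      zero_add, Finset.smul_sum, ← Finset.sum_neg_distrib]
    refine Finset.sum_congr rfl fun u hu => ?_
    rw [Finset.mem_erase, Finset.mem_compl] at hu
    obtain ⟨huv, huT⟩ := hu
    have hvu : v ∉ insert u T := by
      rw [Finset.mem_insert]
      rintro (h | h)
      · exact huv h.symm
      · exact hv h
    rw [qq_of_not _ hvu, smul_smul, smul_smul, Finset.insert_comm v u T, ← neg_smul]
    congr 1
    have := sg_swap v u T huv.symm hv huT
    rw [mul_comm (sg u T), this, mul_comm (sg u (insert v T))]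

theorem qq_mem {G : SimpleGraph V} {ρ : V → M →ₗ[F] M} {A S : Set V} {v : V} {i : ℕ}
    {c : Finset V → M} (h : c ∈ KK G ρ (insert v A) S (i + 1)) :
    qq F v c ∈ KK G ρ (A ∩ G.neighborSet v) (insert v S) i := by
  rw [mem_KK] at h ⊢
  obtain ⟨h1, h2⟩ := h
  refine ⟨fun T hT => ?_, fun T t ht => ?_⟩
  · by_cases hv : v ∈ T
    · exact qq_of_mem _ hv
    · rw [qq_of_not _ hv, h1 (insert v T), smul_zero]
      rintro ⟨h3, h4, h5⟩
      apply hT
      rw [Finset.coe_insert] at h3 h4
      refine ⟨h3.subset (Set.subset_insert _ _), fun x hx => ⟨?_, ?_⟩, ?_⟩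
      · have hxv : x ≠ v := by
          rintro rfl; exact hv (by simpa using hx)
        rcases h4 (Set.mem_insert_of_mem _ hx) with h | h
        · exact absurd h hxv
        · exact h
      · have hxv : v ≠ x := by
          rintro rfl; exact hv (by simpa using hx)
        exact h3 (Set.mem_insert _ _) (Set.mem_insert_of_mem _ hx) hxv
      · rw [Finset.card_insert_of_notMem hv] at h5
        omega
  · by_cases hv : v ∈ T
    · rw [qq_of_mem _ hv]; simp
    · rw [qq_of_not _ hv, map_zsmul, h2 (insert v T) t ?_, smul_neg]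
      rcases ht with h | h | h
      · exact Or.inl (Finset.mem_insert_of_mem h)
      · exact Or.inl (by rw [h]; exact Finset.mem_insert_self _ _)
      · exact Or.inr h

/-- the lift -/
def lift (v : V) (d : Finset V → M) : Finset V → M :=
  fun T => if v ∈ T then sg v (T.erase v) • d (T.erase v) else 0

theorem lift_mem {G : SimpleGraph V} {ρ : V → M →ₗ[F] M} {A S : Set V} {v : V} {i : ℕ}
    {d : Finset V → M} (h : d ∈ KK G ρ (A ∩ G.neighborSet v) (insert v S) i) :
    lift v d ∈ KK G ρ (insert v A) S (i + 1) := by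
  rw [mem_KK] at h ⊢
  obtain ⟨h1, h2⟩ := h
  refine ⟨fun T hT => ?_, fun T t ht => ?_⟩
  · unfold lift
    split_ifs with hv
    · rw [h1 (T.erase v), smul_zero]
      rintro ⟨h3, h4, h5⟩
      apply hT
      have hT' : (T : Set V) = insert v ((T.erase v : Finset V) : Set V) := by
        rw [← Finset.coe_insert, Finset.insert_erase hv]
      refine ⟨?_, ?_, ?_⟩
      · rw [hT', SimpleGraph.isClique_insert]
        exact ⟨h3, fun b hb _ => (h4 hb).2⟩
      · rw [hT']
        exact Set.insert_subset_insert fun x hx => (h4 hx).1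
      · rw [Finset.card_erase_of_mem hv] at h5
        have := Finset.card_pos.2 ⟨v, hv⟩
        omega
    · rfl
  · unfold lift
    split_ifs with hv
    · rw [map_zsmul, h2 (T.erase v) t ?_, smul_neg]
      rcases ht with h | h
      · by_cases htv : t = v
        · right; left; exact htv
        · left; exact Finset.mem_erase.2 ⟨htv, h⟩
      · right; right; exact h
    · simp

theorem qq_lift {G : SimpleGraph V} {ρ : V → M →ₗ[F] M} {A S : Set V} {v : V} {i : ℕ}
    (hvA : v ∉ A)
    {d : Finset V → M} (h : d ∈ KK G ρ (A ∩ G.neighborSet v) (insert v S) i) :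
    qq F v (lift v d) = d := by
  funext T
  by_cases hv : v ∈ T
  · rw [qq_of_mem _ hv, (mem_KK.1 h).1 T]
    rintro ⟨_, h4, _⟩
    exact hvA (h4 (by simpa using hv)).1
  · rw [qq_of_not _ hv]
    unfold lift
    rw [if_pos (Finset.mem_insert_self _ _), Finset.erase_insert hv, smul_smul, sg_mul_self,
      one_smul]

theorem KK_mono {G : SimpleGraph V} {ρ : V → M →ₗ[F] M} {A B S : Set V} {i : ℕ} (h : A ⊆ B) :
    KK G ρ A S i ≤ KK G ρ B S i := by
  intro c hc
  rw [mem_KK] at hc ⊢
  exact ⟨fun T hT => hc.1 T fun ⟨h1, h2, h3⟩ => hT ⟨h1, h2.trans h, h3⟩, hc.2⟩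

theorem mem_of_qq {G : SimpleGraph V} {ρ : V → M →ₗ[F] M} {A S : Set V} {v : V} {i : ℕ}
    {c : Finset V → M} (h : c ∈ KK G ρ (insert v A) S i) (hq : qq F v c = 0) :
    c ∈ KK G ρ A S i := by
  rw [mem_KK] at h ⊢
  refine ⟨fun T hT => ?_, h.2⟩
  by_cases hv : v ∈ T
  · have h1 := congrFun hq (T.erase v)
    rw [qq_of_not _ (Finset.notMem_erase _ _), Finset.insert_erase hv, Pi.zero_apply] at h1
    have h2 : sg v (T.erase v) • sg v (T.erase v) • c T = 0 := by rw [h1, smul_zero]
    rwa [smul_smul, sg_mul_self, one_smul] at h2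
  · refine h.1 T ?_
    rintro ⟨h3, h4, h5⟩
    refine hT ⟨h3, fun x hx => ?_, h5⟩
    rcases h4 hx with h | h
    · exact absurd (by rw [← h]; simpa using hx) hv
    · exact h

theorem vert (hM : S_MID) : S_VERT := by
  intro V F M _ _ _ _ _ _ G ρ A S v hvA hvS
  constructor
  · have h1 : KK G ρ (insert v A) S 0 = KK G ρ A S 0 := by
      refine le_antisymm ?_ (KK_mono (Set.subset_insert _ _))
      intro c hc
      rw [mem_KK] at hc ⊢
      refine ⟨fun T hT => hc.1 T ?_, hc.2⟩
      rintro ⟨h3, h4, h5⟩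
      have hT0 : T = ∅ := Finset.card_eq_zero.1 h5
      exact hT ⟨h3, by simp [hT0], h5⟩
    unfold beta
    have h2 : ZZ G ρ (insert v A) S 0 = ZZ G ρ A S 0 := by
      unfold ZZ; rw [h1]
    rw [h2]
    have h3 : finrank F (BB G ρ A S 0) ≤ finrank F (BB G ρ (insert v A) S 0) := by
      refine Submodule.finrank_mono ?_
      exact Submodule.map_mono (KK_mono (Set.subset_insert _ _))
    omega
  · intro i
    have key := hM F (Finset V → M) (Finset V → M) (Finset V → M) LinearMap.id (qq F v)
      (BB G ρ A S (i + 1)) (ZZ G ρ A S (i + 1)) (BB G ρ (insert v A) S (i + 1))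
      (ZZ G ρ (insert v A) S (i + 1)) (BB G ρ (A ∩ G.neighborSet v) (insert v S) i)
      (ZZ G ρ (A ∩ G.neighborSet v) (insert v S) i) (BB_le_ZZ _ _ _ _ _) (BB_le_ZZ _ _ _ _ _)
      (BB_le_ZZ _ _ _ _ _) ?_ ?_ ?_
    · exact key
    · rw [Submodule.map_id]
      exact Submodule.map_mono (KK_mono (Set.subset_insert _ _))
    · rintro _ ⟨z, hz, rfl⟩
      obtain ⟨hz1, hz2⟩ := hz
      refine ⟨qq_mem hz1, ?_⟩
      have hz2 : bd F z = 0 := hz2
      show bd F (qq F v z) = 0
      rw [qq_bd, hz2, map_zero, neg_zero]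
    · intro z hz hb
      obtain ⟨hz1, hz2⟩ := hz
      have hz2 : bd F z = 0 := hz2
      obtain ⟨d, hd, hdz⟩ := hb
      have hd : d ∈ KK G ρ (A ∩ G.neighborSet v) (insert v S) (i + 1) := hd
      have he := lift_mem (A := A) hd
      have hqe := qq_lift hvA hd
      have hbe : bd F (lift v d) ∈ KK G ρ (insert v A) S (i + 1) := bd_mem_KK he
      refine ⟨z + bd F (lift v d), ⟨mem_of_qq (v := v) ((KK G ρ (insert v A) S (i + 1)).add_mem
        hz1 hbe) ?_, ?_⟩, - bd F (lift v d), ?_, ?_⟩
      · have h1 := qq_bd (F := F) v (lift v d)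
        rw [hqe] at h1
        rw [map_add, ← hdz, h1, neg_add_cancel]
      · show bd F (z + bd F (lift v d)) = 0
        rw [map_add, hz2, bd_bd, add_zero]
      · exact Submodule.neg_mem _ ⟨_, he, rfl⟩
      · simp

end Pool.Agent.W347.SGV
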